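import Mathlib

set_option autoImplicit false

/-! Identities in alternative rings. -/

namespace Pool.Agent.H999R3

section Basic

variable {B : Type*} [NonUnitalNonAssocRing B]

/-- The associator. -/
def as (a b c : B) : B := (a * b) * c - a * (b * c)

/-- The alternative laws. -/
def IsAlt (B : Type*) [NonUnitalNonAssocRing B] : Prop :=
  ∀ x y : B, (x * x) * y = x * (x * y) ∧ (y * x) * x = y * (x * x)

theorem as_add1 (a a' b c : B) : as (a + a') b c = as a b c + as a' b c := by
  simp only [as, add_mul]; abel

theorem as_add2 (a b b' c : B) : as a (b + b') c = as a b c + as a b' c := by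
  simp only [as, add_mul, mul_add]; abel

theorem as_add3 (a b c c' : B) : as a b (c + c') = as a b c + as a b c' := by
  simp only [as, mul_add]; abel

theorem as_sub1 (a a' b c : B) : as (a - a') b c = as a b c - as a' b c := by
  simp only [as, sub_mul]; abel

theorem as_sub2 (a b b' c : B) : as a (b - b') c = as a b c - as a b' c := by
  simp only [as, sub_mul, mul_sub]; abel

theorem as_sub3 (a b c c' : B) : as a b (c - c') = as a b c - as a b c' := by
  simp only [as, mul_sub]; abel

theorem as_neg1 (a b c : B) : as (-a) b c = - as a b c := by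
  simp only [as, neg_mul]; abel

theorem as_neg2 (a b c : B) : as a (-b) c = - as a b c := by
  simp only [as, neg_mul, mul_neg]; abel

theorem as_neg3 (a b c : B) : as a b (-c) = - as a b c := by
  simp only [as, mul_neg]; abel

theorem teich (w x y z : B) :
    as (w * x) y z - as w (x * y) z + as w x (y * z) = w * as x y z + as w x y * z := by
  simp only [as, mul_sub, sub_mul]; abel

variable (h : IsAlt B)
include h

theorem as_xx (x y : B) : as x x y = 0 := by
  simp only [as, (h x y).1, sub_self]

theorem as_yy (x y : B) : as x y y = 0 := by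
  simp only [as, (h y x).2, sub_self]

theorem as_12 (x y z : B) : as x y z = - as y x z := by
  have := as_xx h (x + y) z
  rw [as_add1, as_add2, as_add2, as_xx h x, as_xx h y, zero_add, add_zero] at this
  exact eq_neg_of_add_eq_zero_left this

theorem as_23 (x y z : B) : as x y z = - as x z y := by
  have := as_yy h x (y + z)
  rw [as_add2, as_add3, as_add3, as_yy h x y, as_yy h x z, zero_add, add_zero] at this
  exact (eq_neg_of_add_eq_zero_left this)

theorem as_cyc (x y z : B) : as x y z = as y z x := by
  rw [as_12 h x y z, as_23 h y x z, neg_neg]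

theorem as_13 (x y z : B) : as x y z = - as z y x := by
  rw [as_cyc h x y z, as_12 h y z x]

theorem as_xyx (x y : B) : as x y x = 0 := by
  rw [as_12 h, as_yy h, neg_zero]

omit h in
/-- The Kleinfeld function. -/
def kf (w x y z : B) : B := as (w * x) y z - x * as w y z - as x y z * w

theorem kf_34 (w x y : B) : kf w x y y = 0 := by
  simp only [kf, as_yy h, mul_zero, zero_mul, sub_self]

theorem kf_swap34 (w x y z : B) : kf w x y z = - kf w x z y := by
  simp only [kf]
  rw [as_23 h (w * x) y z, as_23 h w y z, as_23 h x y z]
  simp only [mul_neg, neg_mul]; abel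

theorem kf_cyc (w x y z : B) : kf w x y z = - kf z w x y := by
  have e1 := teich w x y z
  have e2 := teich x y z w
  -- e1 : as (wx) y z - as w (xy) z + as w x (yz) = ...
  rw [as_cyc h w (x * y) z, ← as_cyc h (y * z) w x] at e1
  rw [as_cyc h x (y * z) w, ← as_cyc h (z * w) x y] at e2
  have e3 : as (w * x) y z + as (z * w) x y
      = w * as x y z + as w x y * z + (x * as y z w + as x y z * w) := by
    rw [← e1, ← e2]; abel
  simp only [kf]
  rw [as_cyc h w y z, as_cyc h z x y] 
  have : as (w * x) y z = w * as x y z + as w x y * z + (x * as y z w + as x y z * w)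
      - as (z * w) x y := by rw [← e3]; abel
  rw [this]; abel

theorem kf_23 (w x z : B) : kf w x x z = 0 := by
  rw [kf_cyc h, kf_34 h, neg_zero]

theorem kf_12 (x y z : B) : kf x x y z = 0 := by
  rw [kf_cyc h, kf_23 h, neg_zero]

theorem kf_14 (x y z : B) : kf x y z x = 0 := by
  rw [kf_cyc h, kf_12 h, neg_zero]

theorem kf_swap23 (w x y z : B) : kf w x y z = - kf w y x z := by
  rw [kf_cyc h w x y z, kf_swap34 h z w x y, kf_cyc h w y x z]

theorem kf_swap12 (w x y z : B) : kf w x y z = - kf x w y z := by
  rw [kf_cyc h w x y z, kf_swap23 h z w x y, kf_cyc h x w y z]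

theorem kf_13 (x y z : B) : kf x y x z = 0 := by
  rw [kf_swap23 h, kf_12 h, neg_zero]

theorem kf_24 (w x y : B) : kf w x y x = 0 := by
  rw [kf_swap34 h, kf_23 h, neg_zero]

theorem kf_rot2 (w x y z : B) : kf w x y z = kf y z w x := by
  rw [kf_cyc h w x y z, kf_cyc h z w x y, neg_neg]

omit h in
/-- `(wx, y, z) = x (w, y, z) + (x, y, z) w + f(w,x,y,z)`. -/
theorem as_mul1 (w x y z : B) : as (w * x) y z = x * as w y z + as x y z * w + kf w x y z := by
  simp only [kf]; abel

theorem three_kf (w x y z : B) : kf w x y z + kf w x y z + kf w x y z =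
    w * as x y z + as w x y * z - x * as w y z - as x y z * w + y * as x z w + as y z w * x
      - z * as y w x - as z w x * y := by
  have e1 := teich w x y z
  rw [as_cyc h w (x * y) z, ← as_cyc h (y * z) w x, as_mul1 w x y z, as_mul1 x y z w,
    as_mul1 y z w x, ← kf_rot2 h w x y z] at e1
  have e2 : kf x y z w = - kf w x y z := by rw [kf_cyc h x y z w]
  rw [e2] at e1
  rw [← e1]; abel

theorem kf_eq (w x y z : B) :
    kf w x y z = as (w * x - x * w) y z + as (y * z - z * y) w x := by
  have e3 := three_kf h w x y z
  have a1 := kf_swap12 h w x y z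
  have a2 := kf_rot2 h w x y z
  have a3 := kf_swap12 h y z w x
  have b1 : kf w x y z = as (w * x) y z - x * as w y z - as x y z * w := rfl
  have b2 : kf x w y z = as (x * w) y z - w * as x y z - as w y z * x := rfl
  have b3 : kf y z w x = as (y * z) w x - z * as y w x - as z w x * y := rfl
  have b4 : kf z y w x = as (z * y) w x - y * as z w x - as y w x * z := rfl
  have c1 : as x z w = - as z x w := as_12 h x z w
  have c2 : as z w x = - as z x w := as_23 h z w x
  have c3 : as y z w = as w y z := by rw [as_cyc h w y z]
  have c4 : as w x y = as y w x := by rw [as_cyc h y w x]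
  have key : (kf w x y z + kf w x y z + kf w x y z) + kf w x y z
      = (kf w x y z - kf x w y z) + (kf y z w x - kf z y w x) := by
    have : kf x w y z = - kf w x y z := by rw [a1, neg_neg]
    rw [this]
    have : kf z y w x = - kf y z w x := by rw [a3, neg_neg]
    rw [this, ← a2]; abel
  have key2 : kf w x y z = ((kf w x y z - kf x w y z) + (kf y z w x - kf z y w x))
      - (kf w x y z + kf w x y z + kf w x y z) := by
    rw [← key]; abel
  rw [key2, e3, b1, b2, b3, b4, as_sub1, as_sub1, c1, c2, c3, c4]
  simp only [mul_neg, neg_mul]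
  abel

end Basic

end Pool.Agent.H999R3
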