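import Mathlib
import Pool.Agent.H999R3.AltBasic

set_option autoImplicit false

/-! The nucleus of an alternative ring and the part of it annihilating the associators. -/

namespace Pool.Agent.H999R3

section Core

variable {B : Type*} [NonUnitalNonAssocRing B]

/-- `c` lies in the nucleus (for alternative rings). -/
def Nuc (c : B) : Prop := ∀ a b : B, as c a b = 0

/-- `c` lies in the nucleus and annihilates all associators. -/
structure InC (c : B) : Prop where
  nuc : Nuc c
  ann : ∀ a b d : B, c * as a b d = 0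

theorem Nuc.assoc1 {n : B} (hn : Nuc n) (a b : B) : (n * a) * b = n * (a * b) :=
  sub_eq_zero.mp (hn a b)

variable (h : IsAlt B)
include h

theorem Nuc.as2 {n : B} (hn : Nuc n) (a b : B) : as a n b = 0 := by
  rw [as_12 h, hn, neg_zero]

theorem Nuc.as3 {n : B} (hn : Nuc n) (a b : B) : as a b n = 0 := by
  rw [as_cyc h, as_cyc h, hn]

theorem Nuc.assoc2 {n : B} (hn : Nuc n) (a b : B) : (a * n) * b = a * (n * b) :=
  sub_eq_zero.mp (hn.as2 h a b)

theorem Nuc.assoc3 {n : B} (hn : Nuc n) (a b : B) : (a * b) * n = a * (b * n) :=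
  sub_eq_zero.mp (hn.as3 h a b)

theorem Nuc.as_mul {n : B} (hn : Nuc n) (x y z : B) : as (n * x) y z = n * as x y z := by
  have := teich n x y z
  rw [hn, hn, hn, zero_mul, sub_zero, add_zero, add_zero] at this
  exact this

theorem Nuc.kf1 {n : B} (hn : Nuc n) (x y z : B) : kf n x y z = 0 := by
  rw [kf_rot2 h, kf, hn.as2 h, hn.as2 h, hn.as2 h]; simp

theorem Nuc.comm_as {n : B} (hn : Nuc n) (x y z : B) : n * as x y z = as x y z * n := by
  have e := as_mul1 n x y z
  rw [hn.kf1 h, hn, mul_zero, zero_add, add_zero, hn.as_mul h] at e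
  exact e

theorem Nuc.as_mul' {n : B} (hn : Nuc n) (x y z : B) : as (x * n) y z = n * as x y z := by
  have e := as_mul1 x n y z
  rw [kf_swap12 h, hn.kf1 h, neg_zero, add_zero, hn y z, zero_mul, add_zero] at e
  exact e

theorem Nuc.mul {n m : B} (hn : Nuc n) (hm : Nuc m) : Nuc (n * m) := by
  intro a b
  rw [hn.as_mul h, hm, mul_zero]

theorem Nuc.sub {n m : B} (hn : Nuc n) (hm : Nuc m) : Nuc (n - m) := by
  intro a b
  rw [as_sub1, hn, hm, sub_zero]

theorem InC.of_comm {n m : B} (hn : Nuc n) (hm : Nuc m) : InC (n * m - m * n) where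
  nuc := (hn.mul h hm).sub h (hm.mul h hn)
  ann := by
    intro x y z
    rw [sub_mul, hn.assoc1, hm.assoc1, ← hm.as_mul h, hn.comm_as h, hm.as_mul h, hm.assoc1,
      ← hn.comm_as h, sub_self]

theorem InC.ann' {c : B} (hc : InC c) (x y z : B) : as x y z * c = 0 := by
  rw [← hc.nuc.comm_as h, hc.ann]

theorem InC.add {c d : B} (hc : InC c) (hd : InC d) : InC (c + d) where
  nuc := by intro a b; rw [as_add1, hc.nuc, hd.nuc, add_zero]
  ann := by intro a b e; rw [add_mul, hc.ann, hd.ann, add_zero]

theorem InC.zero : InC (0 : B) where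
  nuc := by intro a b; simp [as]
  ann := by intro a b e; simp

theorem InC.mul_right {c : B} (hc : InC c) (x : B) : InC (c * x) where
  nuc := by intro a b; rw [hc.nuc.as_mul h, hc.ann]
  ann := by
    intro w y z
    have e : x * as w y z = as (w * x) y z - as x y z * w - kf w x y z := by
      rw [as_mul1]; abel
    rw [hc.nuc.assoc1, e, mul_sub, mul_sub, hc.ann, ← hc.nuc.assoc1, hc.ann, zero_mul,
      kf_eq h, mul_add, hc.ann, hc.ann]
    simp

theorem InC.mul_left {c : B} (hc : InC c) (x : B) : InC (x * c) where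
  nuc := by intro a b; rw [hc.nuc.as_mul' h, hc.ann]
  ann := by
    intro w y z
    rw [hc.nuc.assoc2 h, hc.ann, mul_zero]

/-- `d` is annihilated by all elements of `C`. -/
def InAnn (d : B) : Prop := ∀ c : B, InC c → c * d = 0 ∧ d * c = 0

theorem InAnn.as (x y z : B) : InAnn (as x y z) := fun _ hc => ⟨hc.ann x y z, hc.ann' h x y z⟩

omit h in
theorem InAnn.add {d e : B} (hd : InAnn d) (he : InAnn e) : InAnn (d + e) := fun c hc =>
  ⟨by rw [mul_add, (hd c hc).1, (he c hc).1, add_zero],
   by rw [add_mul, (hd c hc).2, (he c hc).2, add_zero]⟩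

omit h in
theorem InAnn.zero : InAnn (0 : B) := fun c _ => ⟨mul_zero c, zero_mul c⟩

theorem InAnn.mul_right {d : B} (hd : InAnn d) (x : B) : InAnn (d * x) := fun c hc =>
  ⟨by rw [← hc.nuc.assoc1, (hd c hc).1, zero_mul],
   by rw [hc.nuc.assoc3 h, (hd _ (hc.mul_left h x)).2]⟩

theorem InAnn.mul_left {d : B} (hd : InAnn d) (x : B) : InAnn (x * d) := fun c hc =>
  ⟨by rw [← hc.nuc.assoc1, (hd _ (hc.mul_right h x)).1],
   by rw [hc.nuc.assoc3 h, (hd c hc).2, mul_zero]⟩

/-! ### `[x, y] ∘ (x, y, z) = 0` -/

theorem as_x_xy (x y z : B) : as x (x * y) z = as x y z * x := by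
  -- (x, xy, z) = (x, y, z) x
  have e := as_mul1 x y x z
  rw [kf_13 h, as_xx h, mul_zero, zero_add, add_zero] at e
  rw [as_12 h, e, as_12 h y x z, neg_mul, neg_neg]

theorem as_x_yx (x y z : B) : as x (y * x) z = x * as x y z := by
  have e := as_mul1 y x x z
  rw [kf_23 h, as_xx h, zero_mul, add_zero, add_zero] at e
  rw [as_12 h, e, as_12 h y x z, mul_neg, neg_neg]

theorem as_xy_x_y (x y : B) : as (x * y) x y = 0 := by
  rw [as_12 h, as_x_xy h, as_yy h, zero_mul, neg_zero]

theorem kf_xyxyz (x y z : B) : kf x y (x * y) z = as (as x y z) x y := by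
  have e0 := as_xx h (x * y) z
  rw [as_mul1, as_x_xy h, as_12 h y (x*y) z] at e0
  have e1 : as (x * y) y z = - (y * as y x z) := by rw [as_12 h, as_x_yx h]
  rw [e1, neg_neg, as_12 h y x z] at e0
  have e2 : kf x y (x * y) z = - (y * (as x y z * x) + y * -(as x y z) * x) := by
    rw [eq_neg_iff_add_eq_zero, ← e0]; abel
  rw [e2, ← as_cyc h y (as x y z) x, as_cyc h y]
  rw [as_cyc h (as x y z), as_cyc h x y (as x y z)] 
  simp only [as, mul_neg, neg_mul]
  abel

theorem key1 (x y z : B) : as x y z * (x * y) = (as x y z * y) * x := by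
  have k1 := kf_xyxyz h x y z
  have k2 := kf_rot2 h x y (x * y) z
  have k3 : as ((x * y) * z) x y = (as x y z * y) * x + as (as x y z) x y := by
    have e1 : (x * y) * z = x * (y * z) + as x y z := by simp only [as]; abel
    rw [e1, as_add1]
    congr 1
    rw [as_12 h, as_x_xy h, as_cyc h x (y * z) y, as_12 h (y * z) y x, as_x_xy h, ← as_cyc h x y z,
      neg_mul, neg_neg]
  have k4 : kf (x * y) z x y
      = as ((x * y) * z) x y - z * as (x * y) x y - as z x y * (x * y) := rfl
  rw [k4, k3, as_xy_x_y h, mul_zero, sub_zero, as_cyc h z x y, k1] at k2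
  have k5 : (as x y z * y) * x - as x y z * (x * y) = 0 := by
    have : (as x y z * y) * x - as x y z * (x * y)
      = ((as x y z * y) * x + as (as x y z) x y - as x y z * (x * y)) - as (as x y z) x y := by abel
    rw [this, ← k2, sub_self]
  exact (sub_eq_zero.mp k5).symm

theorem key3 (x y z : B) : (x * y) * as x y z = y * (x * as x y z) := by
  have k1 := kf_xyxyz h x y z
  have k2 : kf x y (x * y) z = - kf z (x * y) x y := by
    rw [kf_swap34 h, kf_rot2 h x y z (x * y)]
  have k3 : as (z * (x * y)) x y = y * (x * as x y z) - as (as x y z) x y := by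
    have e1 : z * (x * y) = (z * x) * y - as x y z := by
      rw [← as_cyc h z x y]; simp only [as]; abel
    rw [e1, as_sub1]
    congr 1
    rw [as_cyc h, as_cyc h, as_x_yx h, as_cyc h y (z * x) x, as_12 h (z * x) x y, as_x_yx h,
      as_23 h x z y]
    simp only [mul_neg, neg_neg]
  have k4 : kf z (x * y) x y
      = as (z * (x * y)) x y - (x * y) * as z x y - as (x * y) x y * z := rfl
  rw [k4, k3, as_xy_x_y h, zero_mul, sub_zero, as_cyc h z x y, k1] at k2
  have k5 : (x * y) * as x y z - y * (x * as x y z) = 0 := by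
    have : (x * y) * as x y z - y * (x * as x y z)
      = -(y * (x * as x y z) - as (as x y z) x y - (x * y) * as x y z) - as (as x y z) x y := by abel
    rw [this, ← k2, sub_self]
  exact sub_eq_zero.mp k5

theorem key2 (x y z : B) : as x y z * (y * x) = (as x y z * x) * y := by
  have := key1 h y x z
  rw [as_12 h y x z] at this
  simpa only [neg_mul, neg_inj] using this

theorem key4 (x y z : B) : (y * x) * as x y z = x * (y * as x y z) := by
  have := key3 h y x z
  rw [as_12 h y x z] at this
  simpa only [mul_neg, neg_inj] using this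

/-- Twice the identity `[x, y] ∘ (x, y, z) = 0`. -/
theorem two_comm_as (x y z : B) :
    ((x * y - y * x) * as x y z + as x y z * (x * y - y * x))
      + ((x * y - y * x) * as x y z + as x y z * (x * y - y * x)) = 0 := by
  have e1 : (x * y - y * x) * as x y z + as x y z * (x * y - y * x)
      = y * (x * as x y z) - x * (y * as x y z) + (as x y z * y) * x - (as x y z * x) * y := by
    rw [sub_mul, mul_sub, key1 h, key2 h, key3 h, key4 h]; abel
  have f1 : (x * y) * as x y z = x * (y * as x y z) + as x y (as x y z) := by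
    simp only [as]; abel
  have f2 : (y * x) * as x y z = y * (x * as x y z) + as y x (as x y z) := by
    simp only [as]; abel
  have f3 : as x y z * (x * y) = (as x y z * x) * y - as (as x y z) x y := by
    simp only [as]; abel
  have f4 : as x y z * (y * x) = (as x y z * y) * x - as (as x y z) y x := by
    simp only [as]; abel
  have e2 : (x * y - y * x) * as x y z + as x y z * (x * y - y * x)
      = x * (y * as x y z) - y * (x * as x y z) + (as x y z * x) * y - (as x y z * y) * x := by
    rw [sub_mul, mul_sub, f1, f2, f3, f4, as_12 h y x (as x y z), as_23 h (as x y z) y x,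
      as_cyc h (as x y z) x y]
    abel
  nth_rewrite 1 [e1]
  rw [e2]; abel

variable (h2 : ∀ b : B, b + b = 0 → b = 0)
include h2

theorem comm_jordan_as (x y z : B) :
    (x * y - y * x) * as x y z + as x y z * (x * y - y * x) = 0 := h2 _ (two_comm_as h x y z)

/-- `([x,y]^2, x, s) = 0`. -/
theorem as_sq_x (x y s : B) :
    as ((x * y - y * x) * (x * y - y * x)) x s = 0 := by
  rw [as_mul1, kf_12 h, add_zero]
  have e : as (x * y - y * x) x s = - as x y (x * s - s * x) := by
    have := kf_eq h x y x s
    rw [kf_13 h, as_cyc h (x * s - s * x) x y] at this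
    exact eq_neg_of_add_eq_zero_left this.symm
  rw [e, mul_neg, neg_mul, ← neg_add, comm_jordan_as h h2, neg_zero]

/-- `[[x,y]^2, x]` lies in the nucleus. -/
theorem nuc_basic (x y : B) :
    Nuc ((x * y - y * x) * (x * y - y * x) * x - x * ((x * y - y * x) * (x * y - y * x))) := by
  intro z t
  have e := kf_eq h ((x * y - y * x) * (x * y - y * x)) x z t
  have e1 : as (z * t - t * z) ((x * y - y * x) * (x * y - y * x)) x = 0 := by
    rw [as_cyc h, as_sq_x h h2]
  have e2 : kf ((x * y - y * x) * (x * y - y * x)) x z t = 0 := by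
    rw [kf_rot2 h, kf, as_cyc h, as_sq_x h h2, as_cyc h, as_sq_x h h2, as_cyc h, as_sq_x h h2]
    simp
  rw [e1, e2, add_zero] at e
  exact e.symm

end Core

end Pool.Agent.H999R3
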