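import Mathlib

set_option autoImplicit false

/-! Leading words in the free associative algebra. -/

namespace Pool.Agent.H999R3.Words

/-- Words. -/
abbrev W := FreeMonoid ℕ

/-- The key of a word: length and word. -/
def key (w : W) : ℕ ×ₗ List ℕ := toLex (w.toList.length, w.toList)

theorem key_inj : Function.Injective key := by
  intro a b hab
  have := congrArg (fun x => (ofLex x).2) hab
  simpa [key] using this

noncomputable instance instLO : LinearOrder W := LinearOrder.lift' key key_inj

theorem lt_def {a b : W} : a < b ↔ key a < key b := Iff.rfl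

theorem lt_iff {a b : W} : a < b ↔ a.toList.length < b.toList.length ∨
    (a.toList.length = b.toList.length ∧ a.toList < b.toList) := by
  rw [lt_def, Prod.Lex.lt_iff]
  rfl

theorem lt_iff_shortlex {a b : W} :
    a < b ↔ List.Shortlex (fun x y : ℕ => x < y) a.toList b.toList := by
  rw [lt_iff, List.shortlex_def]
  rfl

instance instWF : WellFoundedLT W := by
  constructor
  have h := List.Shortlex.wf (r := fun x y : ℕ => x < y) (wellFounded_lt)
  refine Subrelation.wf (r := InvImage _ (fun w : W => w.toList)) ?_ (InvImage.wf _ h)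
  intro a b hab
  exact lt_iff_shortlex.mp hab

theorem lex_append {s t : List ℕ} (h : List.Lex (fun x y : ℕ => x < y) s t)
    (hl : s.length = t.length) (u : List ℕ) :
    List.Lex (fun x y : ℕ => x < y) (s ++ u) (t ++ u) := by
  induction h with
  | nil => simp at hl
  | @cons a s t h ih =>
    simp only [List.length_cons, add_left_inj] at hl
    exact List.Lex.cons (ih hl)
  | rel h => exact List.Lex.rel h

theorem mul_lt_left {a b : W} (c : W) (h : a < b) : c * a < c * b := by
  rw [lt_iff_shortlex] at h ⊢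
  exact List.Shortlex.append_left h _

theorem mul_lt_right {a b : W} (c : W) (h : a < b) : a * c < b * c := by
  rw [lt_iff_shortlex, List.shortlex_def] at h ⊢
  simp only [FreeMonoid.toList_mul, List.length_append]
  rcases h with h | ⟨h1, h2⟩
  · left; omega
  · right; exact ⟨by omega, lex_append h2 h1 _⟩

theorem mul_le_left {a b : W} (c : W) (h : a ≤ b) : c * a ≤ c * b := by
  rcases h.eq_or_lt with rfl | h
  · exact le_rfl
  · exact (mul_lt_left c h).le

theorem mul_le_right {a b : W} (c : W) (h : a ≤ b) : a * c ≤ b * c := by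
  rcases h.eq_or_lt with rfl | h
  · exact le_rfl
  · exact (mul_lt_right c h).le

variable {F : Type*} [Field F]

/-- `a` is the leading word of `r`. -/
def IsTop (r : MonoidAlgebra F W) (a : W) : Prop :=
  r.coeff a ≠ 0 ∧ ∀ b, r.coeff b ≠ 0 → b ≤ a

theorem exists_top {r : MonoidAlgebra F W} (hr : r ≠ 0) : ∃ a, IsTop r a := by
  have hs : r.coeff.support.Nonempty := by
    rw [Finsupp.support_nonempty_iff]
    exact fun h => hr (MonoidAlgebra.coeff_eq_zero.mp h)
  obtain ⟨a, ha, hm⟩ := r.coeff.support.exists_max_image id hs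
  refine ⟨a, Finsupp.mem_support_iff.mp ha, fun b hb => hm b (Finsupp.mem_support_iff.mpr hb)⟩

theorem IsTop.ne_zero {r : MonoidAlgebra F W} {a : W} (h : IsTop r a) : r ≠ 0 := by
  rintro rfl
  exact h.1 rfl

theorem coeff_mul_exists {r s : MonoidAlgebra F W} {c : W} (h : (r * s).coeff c ≠ 0) :
    ∃ a b, r.coeff a ≠ 0 ∧ s.coeff b ≠ 0 ∧ c = a * b := by
  classical
  have h1 : c ∈ (r * s).coeff.support := Finsupp.mem_support_iff.mpr h
  have h2 := MonoidAlgebra.support_coeff_mul_subset r s h1
  rw [Finset.mem_mul] at h2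
  obtain ⟨a, ha, b, hb, e⟩ := h2
  exact ⟨a, b, Finsupp.mem_support_iff.mp ha, Finsupp.mem_support_iff.mp hb, e.symm⟩

theorem IsTop.coeff_mul {r s : MonoidAlgebra F W} {a b : W} (hr : IsTop r a) (hs : IsTop s b) :
    (r * s).coeff (a * b) = r.coeff a * s.coeff b := by
  apply MonoidAlgebra.coeff_mul_mul_of_uniqueMul
  intro c d hc hd e
  have hc' := hr.2 c (Finsupp.mem_support_iff.mp hc)
  have hd' := hs.2 d (Finsupp.mem_support_iff.mp hd)
  rcases hc'.eq_or_lt with rfl | hlt
  · refine ⟨rfl, ?_⟩
    rcases hd'.eq_or_lt with rfl | hlt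
    · rfl
    · exact absurd e (mul_lt_left _ hlt).ne
  · exact absurd e (lt_of_lt_of_le (mul_lt_right d hlt) (mul_le_left a hd')).ne

theorem IsTop.mul {r s : MonoidAlgebra F W} {a b : W} (hr : IsTop r a) (hs : IsTop s b) :
    IsTop (r * s) (a * b) := by
  refine ⟨?_, ?_⟩
  · rw [hr.coeff_mul hs]; exact mul_ne_zero hr.1 hs.1
  · intro c hc
    obtain ⟨a', b', ha', hb', rfl⟩ := coeff_mul_exists hc
    exact (mul_le_right b' (hr.2 a' ha')).trans (mul_le_left a (hs.2 b' hb'))

/-- The measure of an element: its leading word or `⊥`. -/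
noncomputable def ms (r : MonoidAlgebra F W) : WithBot W :=
  r.coeff.support.sup (fun w => (w : WithBot W))

theorem ms_eq {r : MonoidAlgebra F W} {a : W} (h : IsTop r a) : ms r = a := by
  apply le_antisymm
  · apply Finset.sup_le
    intro b hb
    exact WithBot.coe_le_coe.mpr (h.2 b (Finsupp.mem_support_iff.mp hb))
  · exact Finset.le_sup (f := fun w : W => (w : WithBot W)) (Finsupp.mem_support_iff.mpr h.1)

theorem ms_lt {r : MonoidAlgebra F W} {a : W} (h : ∀ b, r.coeff b ≠ 0 → b < a) :
    ms r < (a : WithBot W) := by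
  unfold ms
  rw [Finset.sup_lt_iff (WithBot.bot_lt_coe a)]
  intro b hb
  exact WithBot.coe_lt_coe.mpr (h b (Finsupp.mem_support_iff.mp hb))

theorem ms_sub_lt {r s : MonoidAlgebra F W} {a : W} (hr : IsTop r a)
    (hs : ∀ b, s.coeff b ≠ 0 → b ≤ a) (e : r.coeff a = s.coeff a) : ms (r - s) < ms r := by
  rw [ms_eq hr]
  apply ms_lt
  intro b hb
  have hb2 : r.coeff b - s.coeff b ≠ 0 := hb
  have h1 : b ≠ a := by
    rintro rfl
    exact hb2 (by rw [e, sub_self])
  refine lt_of_le_of_ne ?_ h1
  by_cases h2 : r.coeff b = 0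
  · apply hs
    intro h3
    exact hb2 (by rw [h2, h3, sub_self])
  · exact hr.2 b h2

theorem top_single (w : W) : IsTop (MonoidAlgebra.single w (1 : F)) w := by
  refine ⟨by simp, ?_⟩
  intro b hb
  rw [MonoidAlgebra.coeff_single, Finsupp.single_apply] at hb
  by_cases h : w = b
  · exact h.symm.le
  · rw [if_neg h] at hb; exact absurd rfl hb

end Pool.Agent.H999R3.Words
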