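import Mathlib
import Pool.Agent.H999R3.AltCore
import Pool.Agent.H999R3.Words

set_option autoImplicit false

/-! Products of two elements of `C` are determined by their image in the free associative algebra. -/

namespace Pool.Agent.H999R3

open Words

section

variable {F : Type*} [Field F] {B : Type*} [NonUnitalNonAssocRing B] [Module F B]
  [IsScalarTower F B B] [SMulCommClass F B B]

omit [SMulCommClass F B B] in
theorem as_smul1 (r : F) (a b c : B) : as (r • a) b c = r • as a b c := by
  simp only [as, smul_mul_assoc, smul_sub]

omit [SMulCommClass F B B] in
theorem InC.smul {c : B} (hc : InC c) (r : F) : InC (r • c) where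
  nuc := by intro a b; rw [as_smul1, hc.nuc, smul_zero]
  ann := by intro a b e; rw [smul_mul_assoc, hc.ann, smul_zero]

theorem InAnn.smul {d : B} (hd : InAnn d) (r : F) : InAnn (r • d) := fun c hc =>
  ⟨by rw [mul_smul_comm, (hd c hc).1, smul_zero],
   by rw [smul_mul_assoc, (hd c hc).2, smul_zero]⟩

/-- Right multiplication by a word. -/
def rmul (x : ℕ → B) : B → List ℕ → B
  | u, [] => u
  | u, i :: l => rmul x (u * x i) l

/-- Left multiplication by a word. -/
def lmul (x : ℕ → B) : List ℕ → B → B
  | [], v => v
  | i :: l, v => x i * lmul x l v

omit [Module F B] [IsScalarTower F B B] [SMulCommClass F B B] in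
theorem InC.rmul (h : IsAlt B) (x : ℕ → B) {u : B} (hu : InC u) (l : List ℕ) :
    InC (rmul x u l) := by
  induction l generalizing u with
  | nil => exact hu
  | cons i l ih => exact ih (hu.mul_right h (x i))

omit [Module F B] [IsScalarTower F B B] [SMulCommClass F B B] in
theorem InC.lmul (h : IsAlt B) (x : ℕ → B) {v : B} (hv : InC v) (l : List ℕ) :
    InC (lmul x l v) := by
  induction l with
  | nil => exact hv
  | cons i l ih => exact ih.mul_left h (x i)

omit [Module F B] [IsScalarTower F B B] [SMulCommClass F B B] in
theorem rmul_mul (h : IsAlt B) (x : ℕ → B) {u : B} (hu : InC u) (l : List ℕ) (v : B) :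
    rmul x u l * v = u * lmul x l v := by
  induction l generalizing u with
  | nil => rfl
  | cons i l ih =>
    simp only [Pool.Agent.H999R3.rmul, Pool.Agent.H999R3.lmul]
    rw [ih (hu.mul_right h (x i)), hu.nuc.assoc1]

variable (h : IsAlt B) (x : ℕ → B) (π : B →ₙₐ[F] MonoidAlgebra F W)
  (hx : ∀ i, π (x i) = MonoidAlgebra.single (FreeMonoid.of i) 1)
include hx

omit [IsScalarTower F B B] [SMulCommClass F B B] in
theorem pi_rmul (u : B) (l : List ℕ) :
    π (rmul x u l) = π u * MonoidAlgebra.single (FreeMonoid.ofList l) 1 := by
  induction l generalizing u with
  | nil => simp [rmul, ← MonoidAlgebra.one_def]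
  | cons i l ih =>
    rw [rmul, ih, map_mul, hx, mul_assoc, MonoidAlgebra.single_mul_single, one_mul]
    rfl

variable (hker : ∀ u : B, π u = 0 → InAnn u)
include h hker

theorem sum_zero (n : ℕ) : ∀ (u v : Fin n → B), (∀ i, InC (u i)) → (∀ i, InC (v i)) →
    π (∑ i, u i * v i) = 0 → ∑ i, u i * v i = 0 := by
  have wf : WellFounded (fun a b : Fin n → WithBot W => a < b) :=
    (inferInstance : WellFoundedLT (Fin n → WithBot W)).wf
  have main : ∀ m : Fin n → WithBot W, ∀ (u v : Fin n → B), (∀ i, InC (u i)) →
      (∀ i, InC (v i)) → (fun i => ms (π (u i))) = m →
      π (∑ i, u i * v i) = 0 → ∑ i, u i * v i = 0 := by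
    intro m
    induction m using wf.induction with
    | h m ih =>
      intro u v hu hv hm hs
      by_cases hc : ∃ i j : Fin n, ∃ a w : W, i ≠ j ∧ IsTop (π (u i)) a ∧ IsTop (π (u j)) (a * w)
      · obtain ⟨i, j, a, w, hij, hi, hj⟩ := hc
        set lam : F := (π (u j)).coeff (a * w) / (π (u i)).coeff a with hlam
        set u' : Fin n → B := Function.update u j (u j - lam • rmul x (u i) w.toList) with hu'
        set v' : Fin n → B := Function.update v i (v i + lam • lmul x w.toList (v j)) with hv'
        have huj : u' j = u j - lam • rmul x (u i) w.toList := by simp [hu']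
        have hune : ∀ k, k ≠ j → u' k = u k := fun k hk => by simp [hu', hk]
        have hvi : v' i = v i + lam • lmul x w.toList (v j) := by simp [hv']
        have hvne : ∀ k, k ≠ i → v' k = v k := fun k hk => by simp [hv', hk]
        have hu'C : ∀ k, InC (u' k) := by
          intro k
          by_cases hk : k = j
          · subst hk
            rw [huj, sub_eq_add_neg, ← neg_smul]
            exact (hu k).add h (((hu i).rmul h x _).smul _)
          · rw [hune k hk]; exact hu k
        have hv'C : ∀ k, InC (v' k) := by
          intro k
          by_cases hk : k = i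
          · subst hk
            rw [hvi]
            exact (hv k).add h (((hv j).lmul h x _).smul _)
          · rw [hvne k hk]; exact hv k
        have hsum : ∑ k, u' k * v' k = ∑ k, u k * v k := by
          have e : ∀ k, u' k * v' k = u k * v k
              + ((if k = j then -(lam • (u i * lmul x w.toList (v j))) else 0)
                + (if k = i then lam • (u i * lmul x w.toList (v j)) else 0)) := by
            intro k
            by_cases hk : k = j
            · subst hk
              rw [huj, hvne _ (Ne.symm hij), if_pos rfl, if_neg (Ne.symm hij), sub_mul,
                smul_mul_assoc, rmul_mul h x (hu i), add_zero, sub_eq_add_neg]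
            · by_cases hk2 : k = i
              · subst hk2
                rw [hune _ hk, hvi, if_neg hk, if_pos rfl, mul_add, mul_smul_comm, zero_add]
              · rw [hune _ hk, hvne _ hk2, if_neg hk, if_neg hk2, add_zero, add_zero]
          rw [Finset.sum_congr rfl (fun k _ => e k), Finset.sum_add_distrib,
            Finset.sum_add_distrib, Finset.sum_ite_eq' Finset.univ j,
            Finset.sum_ite_eq' Finset.univ i, if_pos (Finset.mem_univ _),
            if_pos (Finset.mem_univ _), neg_add_cancel, add_zero]
        rw [← hsum] at hs ⊢
        have hdec : ms (π (u' j)) < ms (π (u j)) := by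
          rw [huj, map_sub, map_smul, pi_rmul x π hx]
          have hprod : IsTop (π (u i) * MonoidAlgebra.single (FreeMonoid.ofList w.toList) 1)
              (a * w) := hi.mul (top_single w)
          apply ms_sub_lt hj
          · intro b hb
            apply hprod.2
            intro h0
            exact hb (by rw [MonoidAlgebra.coeff_smul, Finsupp.smul_apply, h0, smul_zero])
          · rw [MonoidAlgebra.coeff_smul, Finsupp.smul_apply]
            have e2 : (π (u i) * MonoidAlgebra.single (FreeMonoid.ofList w.toList) 1).coeff (a * w)
                = (π (u i)).coeff a := by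
              have := hi.coeff_mul (top_single (F := F) w)
              simpa using this
            rw [e2, hlam, smul_eq_mul, div_mul_cancel₀ _ hi.1]
        refine ih (fun k => ms (π (u' k))) ?_ u' v' hu'C hv'C rfl hs
        rw [← hm]
        rw [Pi.lt_def]
        refine ⟨?_, j, hdec⟩
        intro k
        by_cases hk : k = j
        · subst hk; exact hdec.le
        · simp only [hune k hk]; exact le_rfl
      · -- no leading word of `u` is a prefix of another one
        have claim : ∀ i, π (u i) = 0 ∨ π (v i) = 0 := by
          by_contra hcon
          push Not at hcon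
          obtain ⟨i0, hi0, hi0'⟩ := hcon
          classical
          set S : Finset (Fin n) := Finset.univ.filter (fun i => π (u i) ≠ 0 ∧ π (v i) ≠ 0) with hS
          have hSne : S.Nonempty := ⟨i0, by simp [hS, hi0, hi0']⟩
          have htop : ∀ i, π (u i) ≠ 0 ∧ π (v i) ≠ 0 → ∃ p : W × W, IsTop (π (u i)) p.1 ∧
              IsTop (π (v i)) p.2 := by
            intro i hi
            obtain ⟨a, ha⟩ := exists_top hi.1
            obtain ⟨b, hb⟩ := exists_top hi.2
            exact ⟨(a, b), ha, hb⟩
          set p : Fin n → W × W := fun i => if hi : π (u i) ≠ 0 ∧ π (v i) ≠ 0 then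
            (htop i hi).choose else (1, 1) with hp
          have hp1 : ∀ i, π (u i) ≠ 0 ∧ π (v i) ≠ 0 → IsTop (π (u i)) (p i).1 ∧
              IsTop (π (v i)) (p i).2 := by
            intro i hi
            simp only [hp, dif_pos hi]
            exact (htop i hi).choose_spec
          obtain ⟨i, hiS, himax⟩ := S.exists_max_image (fun i => (p i).1 * (p i).2) hSne
          have hi : π (u i) ≠ 0 ∧ π (v i) ≠ 0 := by simpa [hS] using hiS
          have hcoef : (π (∑ k, u k * v k)).coeff ((p i).1 * (p i).2) ≠ 0 := by
            rw [map_sum, MonoidAlgebra.coeff_sum, Finsupp.finsetSum_apply,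
              Finset.sum_eq_single i]
            · rw [map_mul π, (hp1 i hi).1.coeff_mul (hp1 i hi).2]
              exact mul_ne_zero (hp1 i hi).1.1 (hp1 i hi).2.1
            · intro k _ hki
              by_contra hne
              rw [map_mul π] at hne
              have hk : π (u k) ≠ 0 ∧ π (v k) ≠ 0 := by
                constructor
                · intro h0; rw [h0, zero_mul] at hne; exact hne rfl
                · intro h0; rw [h0, mul_zero] at hne; exact hne rfl
              have hkS : k ∈ S := by simp [hS, hk]
              have t := (hp1 k hk).1.mul (hp1 k hk).2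
              have le1 := t.2 _ hne
              have le2 := himax k hkS
              have e : (p k).1 * (p k).2 = (p i).1 * (p i).2 := le_antisymm le2 le1
              -- one of the leading words is a prefix of the other
              have e' : (p k).1.toList ++ (p k).2.toList = (p i).1.toList ++ (p i).2.toList := by
                have := congrArg FreeMonoid.toList e
                simpa using this
              rcases List.append_eq_append_iff.mp e' with ⟨l, h1, _⟩ | ⟨l, h1, _⟩
              · -- p i .1 = p k .1 ++ l
                apply hc
                refine ⟨k, i, (p k).1, FreeMonoid.ofList l, hki, (hp1 k hk).1, ?_⟩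
                have : (p k).1 * FreeMonoid.ofList l = (p i).1 := by
                  apply FreeMonoid.toList.injective
                  simpa using h1.symm
                rw [this]; exact (hp1 i hi).1
              · apply hc
                refine ⟨i, k, (p i).1, FreeMonoid.ofList l, Ne.symm hki, (hp1 i hi).1, ?_⟩
                have : (p i).1 * FreeMonoid.ofList l = (p k).1 := by
                  apply FreeMonoid.toList.injective
                  simpa using h1.symm
                rw [this]; exact (hp1 k hk).1
            · intro hn; exact absurd (Finset.mem_univ i) hn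
          rw [hs] at hcoef
          exact hcoef rfl
        apply Finset.sum_eq_zero
        intro i _
        rcases claim i with h0 | h0
        · exact (hker _ h0 _ (hv i)).2
        · exact (hker _ h0 _ (hu i)).1
  intro u v hu hv hs
  exact main _ u v hu hv rfl hs

end

end Pool.Agent.H999R3
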