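import Mathlib

set_option autoImplicit false

/-! Quotients of nonassociative algebras by ideals. -/

namespace Pool.Agent.H999R3

variable {F : Type*} [Field F] {M : Type*} [NonUnitalNonAssocRing M] [Module F M]

/-- A two-sided ideal of a nonassociative algebra. -/
structure NAIdeal (F : Type*) [Field F] (M : Type*) [NonUnitalNonAssocRing M] [Module F M] where
  /-- the underlying subspace -/
  car : Submodule F M
  mul_left : ∀ (a : M) {j : M}, j ∈ car → a * j ∈ car
  mul_right : ∀ (a : M) {j : M}, j ∈ car → j * a ∈ car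

/-- The quotient algebra. -/
def Quo (J : NAIdeal F M) := M ⧸ J.car

namespace Quo

variable (J : NAIdeal F M)

instance : AddCommGroup (Quo J) := inferInstanceAs (AddCommGroup (M ⧸ J.car))

instance : Module F (Quo J) := inferInstanceAs (Module F (M ⧸ J.car))

/-- The quotient map. -/
def mk (a : M) : Quo J := Submodule.Quotient.mk a

theorem mk_surj (a : Quo J) : ∃ x, mk J x = a := Submodule.Quotient.mk_surjective _ a

theorem mk_eq {a b : M} : mk J a = mk J b ↔ a - b ∈ J.car := Submodule.Quotient.eq _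

theorem mk_zero_iff {a : M} : mk J a = 0 ↔ a ∈ J.car := Submodule.Quotient.mk_eq_zero _

theorem mk_add (a b : M) : mk J (a + b) = mk J a + mk J b := rfl

theorem mk_smul (r : F) (a : M) : mk J (r • a) = r • mk J a := rfl

theorem mk_zero : mk J (0 : M) = 0 := rfl

instance : Mul (Quo J) := ⟨fun a b => Quotient.liftOn₂' a b (fun x y => mk J (x * y)) (by
  intro a₁ a₂ b₁ b₂ h1 h2
  have h1' : a₁ - b₁ ∈ J.car := (Submodule.quotientRel_def J.car).mp h1
  have h2' : a₂ - b₂ ∈ J.car := (Submodule.quotientRel_def J.car).mp h2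
  rw [mk_eq]
  have : a₁ * a₂ - b₁ * b₂ = (a₁ - b₁) * a₂ + b₁ * (a₂ - b₂) := by
    rw [sub_mul, mul_sub]; abel
  rw [this]
  exact J.car.add_mem (J.mul_right _ h1') (J.mul_left _ h2'))⟩

theorem mk_mul (a b : M) : mk J (a * b) = mk J a * mk J b := rfl

instance : NonUnitalNonAssocRing (Quo J) where
  left_distrib := by
    intro a b c
    obtain ⟨a, rfl⟩ := mk_surj J a
    obtain ⟨b, rfl⟩ := mk_surj J b
    obtain ⟨c, rfl⟩ := mk_surj J c
    rw [← mk_add, ← mk_mul, ← mk_mul, ← mk_mul, ← mk_add, mul_add]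
  right_distrib := by
    intro a b c
    obtain ⟨a, rfl⟩ := mk_surj J a
    obtain ⟨b, rfl⟩ := mk_surj J b
    obtain ⟨c, rfl⟩ := mk_surj J c
    rw [← mk_add, ← mk_mul, ← mk_mul, ← mk_mul, ← mk_add, add_mul]
  zero_mul := by
    intro a
    obtain ⟨a, rfl⟩ := mk_surj J a
    rw [← mk_zero, ← mk_mul, zero_mul]
  mul_zero := by
    intro a
    obtain ⟨a, rfl⟩ := mk_surj J a
    rw [← mk_zero, ← mk_mul, mul_zero]

instance [IsScalarTower F M M] : IsScalarTower F (Quo J) (Quo J) where
  smul_assoc := by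
    intro r a b
    obtain ⟨a, rfl⟩ := mk_surj J a
    obtain ⟨b, rfl⟩ := mk_surj J b
    change (r • mk J a) * mk J b = r • (mk J a * mk J b)
    rw [← mk_smul, ← mk_mul, ← mk_mul, smul_mul_assoc, mk_smul]

instance [SMulCommClass F M M] : SMulCommClass F (Quo J) (Quo J) where
  smul_comm := by
    intro r a b
    obtain ⟨a, rfl⟩ := mk_surj J a
    obtain ⟨b, rfl⟩ := mk_surj J b
    change r • (mk J a * mk J b) = mk J a * (r • mk J b)
    rw [← mk_smul, ← mk_mul, ← mk_mul, mul_smul_comm, mk_smul]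

/-- The quotient homomorphism. -/
def mkHom : M →ₙₐ[F] Quo J where
  toFun := mk J
  map_smul' := fun _ _ => rfl
  map_zero' := rfl
  map_add' := fun _ _ => rfl
  map_mul' := fun _ _ => rfl

theorem mkHom_apply (a : M) : mkHom J a = mk J a := rfl

end Quo

end Pool.Agent.H999R3
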