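import Mathlib
import Pool.Agent.H999R3.AltBasic

set_option autoImplicit false

/-! Zorn's algebra of vector matrices: an alternative algebra that is not associative. -/

namespace Pool.Agent.H999R3

/-- Zorn's vector matrices: `(a, b, u, v)` with `u, v` in `F^3`. -/
def Zorn (F : Type*) := Fin 8 → F

namespace Zorn

variable {F : Type*} [Field F]

instance : AddCommGroup (Zorn F) := inferInstanceAs (AddCommGroup (Fin 8 → F))
instance : Module F (Zorn F) := inferInstanceAs (Module F (Fin 8 → F))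

instance : Mul (Zorn F) := ⟨fun p q =>
  ![p 0 * q 0 + (p 2 * q 5 + p 3 * q 6 + p 4 * q 7),
    p 1 * q 1 + (p 5 * q 2 + p 6 * q 3 + p 7 * q 4),
    p 0 * q 2 + q 1 * p 2 - (p 6 * q 7 - p 7 * q 6),
    p 0 * q 3 + q 1 * p 3 - (p 7 * q 5 - p 5 * q 7),
    p 0 * q 4 + q 1 * p 4 - (p 5 * q 6 - p 6 * q 5),
    q 0 * p 5 + p 1 * q 5 + (p 3 * q 4 - p 4 * q 3),
    q 0 * p 6 + p 1 * q 6 + (p 4 * q 2 - p 2 * q 4),
    q 0 * p 7 + p 1 * q 7 + (p 2 * q 3 - p 3 * q 2)]⟩

theorem add_apply (p q : Zorn F) (i : Fin 8) : (p + q) i = p i + q i := rfl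
theorem smul_apply (r : F) (p : Zorn F) (i : Fin 8) : (r • p) i = r * p i := rfl
theorem zero_apply (i : Fin 8) : (0 : Zorn F) i = 0 := rfl

theorem mul_0 (p q : Zorn F) : (p * q) 0 = p 0 * q 0 + (p 2 * q 5 + p 3 * q 6 + p 4 * q 7) := rfl
theorem mul_1 (p q : Zorn F) : (p * q) 1 = p 1 * q 1 + (p 5 * q 2 + p 6 * q 3 + p 7 * q 4) := rfl
theorem mul_2 (p q : Zorn F) : (p * q) 2 = p 0 * q 2 + q 1 * p 2 - (p 6 * q 7 - p 7 * q 6) := rfl
theorem mul_3 (p q : Zorn F) : (p * q) 3 = p 0 * q 3 + q 1 * p 3 - (p 7 * q 5 - p 5 * q 7) := rfl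
theorem mul_4 (p q : Zorn F) : (p * q) 4 = p 0 * q 4 + q 1 * p 4 - (p 5 * q 6 - p 6 * q 5) := rfl
theorem mul_5 (p q : Zorn F) : (p * q) 5 = q 0 * p 5 + p 1 * q 5 + (p 3 * q 4 - p 4 * q 3) := rfl
theorem mul_6 (p q : Zorn F) : (p * q) 6 = q 0 * p 6 + p 1 * q 6 + (p 4 * q 2 - p 2 * q 4) := rfl
theorem mul_7 (p q : Zorn F) : (p * q) 7 = q 0 * p 7 + p 1 * q 7 + (p 2 * q 3 - p 3 * q 2) := rfl

theorem ext8 {p q : Zorn F} (h0 : p 0 = q 0) (h1 : p 1 = q 1) (h2 : p 2 = q 2) (h3 : p 3 = q 3)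
    (h4 : p 4 = q 4) (h5 : p 5 = q 5) (h6 : p 6 = q 6) (h7 : p 7 = q 7) : p = q := by
  funext i
  fin_cases i <;> assumption

instance : NonUnitalNonAssocRing (Zorn F) where
  left_distrib := by
    intro a b c
    apply ext8 <;> simp only [mul_0, mul_1, mul_2, mul_3, mul_4, mul_5, mul_6, mul_7,
      add_apply] <;> ring
  right_distrib := by
    intro a b c
    apply ext8 <;> simp only [mul_0, mul_1, mul_2, mul_3, mul_4, mul_5, mul_6, mul_7,
      add_apply] <;> ring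
  zero_mul := by
    intro a
    apply ext8 <;> simp only [mul_0, mul_1, mul_2, mul_3, mul_4, mul_5, mul_6, mul_7,
      zero_apply] <;> ring
  mul_zero := by
    intro a
    apply ext8 <;> simp only [mul_0, mul_1, mul_2, mul_3, mul_4, mul_5, mul_6, mul_7,
      zero_apply] <;> ring

instance : IsScalarTower F (Zorn F) (Zorn F) where
  smul_assoc := by
    intro r a b
    change (r • a) * b = r • (a * b)
    apply ext8 <;> simp only [mul_0, mul_1, mul_2, mul_3, mul_4, mul_5, mul_6, mul_7,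
      smul_apply] <;> ring

instance : SMulCommClass F (Zorn F) (Zorn F) where
  smul_comm := by
    intro r a b
    change r • (a * b) = a * (r • b)
    apply ext8 <;> simp only [mul_0, mul_1, mul_2, mul_3, mul_4, mul_5, mul_6, mul_7,
      smul_apply] <;> ring

theorem isAlt : IsAlt (Zorn F) := by
  intro x y
  constructor
  · apply ext8 <;> simp only [mul_0, mul_1, mul_2, mul_3, mul_4, mul_5, mul_6, mul_7] <;> ring
  · apply ext8 <;> simp only [mul_0, mul_1, mul_2, mul_3, mul_4, mul_5, mul_6, mul_7] <;> ring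

/-- Basis vectors. -/
def e (k : Fin 8) : Zorn F := fun i => if i = k then 1 else 0

theorem e_apply (k i : Fin 8) : (e k : Zorn F) i = if i = k then 1 else 0 := rfl

theorem sub_apply (p q : Zorn F) (i : Fin 8) : (p - q) i = p i - q i := rfl

theorem not_assoc : (e 2 * e 3) * e 4 - e 2 * (e 3 * e 4) ≠ (0 : Zorn F) := by
  intro h
  have h0 : ((e 2 * e 3) * e 4 - e 2 * (e 3 * e 4) : Zorn F) 0 = (0 : Zorn F) 0 := by rw [h]
  rw [sub_apply, zero_apply] at h0
  simp only [mul_0, mul_2, mul_3, mul_4, mul_5, mul_6, mul_7, e_apply] at h0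
  simp at h0

end Zorn

end Pool.Agent.H999R3
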