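import Mathlib
import Pool.Agent.H999R3.Main1
import Pool.Agent.H999R3.Quo
import Pool.Agent.H999R3.Zorn

set_option autoImplicit false

/-! The free alternative algebra and the final assembly. -/

namespace Pool.Agent.H999R3

open Words FreeNonUnitalNonAssocAlgebra

section lift

variable {F : Type*} [Field F] {M : Type*} [NonUnitalNonAssocRing M] [Module F M]
  {N : Type*} [NonUnitalNonAssocRing N] [Module F N]

/-- The linear map underlying a homomorphism. -/
def linOf (g : M →ₙₐ[F] N) : M →ₗ[F] N where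
  toFun := g
  map_add' := map_add g
  map_smul' := fun r a => map_smul g r a

/-- The homomorphism induced on a quotient. -/
def Quo.lift (J : NAIdeal F M) (g : M →ₙₐ[F] N) (hg : ∀ j ∈ J.car, g j = 0) :
    Quo J →ₙₐ[F] N where
  toFun := J.car.liftQ (linOf g) hg
  map_smul' := by
    intro r a
    obtain ⟨a, rfl⟩ := Quo.mk_surj J a
    exact map_smul g r a
  map_zero' := map_zero g
  map_add' := by
    intro a b
    obtain ⟨a, rfl⟩ := Quo.mk_surj J a
    obtain ⟨b, rfl⟩ := Quo.mk_surj J b
    exact map_add g a b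
  map_mul' := by
    intro a b
    obtain ⟨a, rfl⟩ := Quo.mk_surj J a
    obtain ⟨b, rfl⟩ := Quo.mk_surj J b
    exact map_mul g a b

theorem Quo.lift_mk (J : NAIdeal F M) (g : M →ₙₐ[F] N) (hg : ∀ j ∈ J.car, g j = 0) (a : M) :
    Quo.lift J g hg (Quo.mk J a) = g a := rfl

end lift

theorem IsAlt.quo {F : Type*} [Field F] {M : Type*} [NonUnitalNonAssocRing M] [Module F M]
    (h : IsAlt M) (J : NAIdeal F M) : IsAlt (Quo J) := by
  intro a b
  obtain ⟨a, rfl⟩ := Quo.mk_surj J a
  obtain ⟨b, rfl⟩ := Quo.mk_surj J b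
  constructor
  · rw [← Quo.mk_mul, ← Quo.mk_mul, ← Quo.mk_mul, ← Quo.mk_mul, (h a b).1]
  · rw [← Quo.mk_mul, ← Quo.mk_mul, ← Quo.mk_mul, ← Quo.mk_mul, (h a b).2]

theorem isAlt_of_assoc {M : Type*} [NonUnitalRing M] : IsAlt M := fun x y =>
  ⟨mul_assoc x x y, mul_assoc y x x⟩

section ann

variable {F : Type*} [Field F] {B : Type*} [NonUnitalNonAssocRing B] [Module F B]
  [IsScalarTower F B B] [SMulCommClass F B B]

/-- The annihilator of `C`. -/
def annIdeal (F : Type*) [Field F] {B : Type*} [NonUnitalNonAssocRing B] [Module F B]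
    [IsScalarTower F B B] [SMulCommClass F B B] (h : IsAlt B) : NAIdeal F B where
  car :=
    { carrier := {d | InAnn d}
      add_mem' := fun ha hb => InAnn.add ha hb
      zero_mem' := InAnn.zero
      smul_mem' := fun r _ ha => InAnn.smul ha r }
  mul_left := fun a _ hj => InAnn.mul_left h hj a
  mul_right := fun a _ hj => InAnn.mul_right h hj a

theorem mem_annIdeal (h : IsAlt B) (d : B) : d ∈ (annIdeal F h).car ↔ InAnn d := Iff.rfl

/-- The quotient by the annihilator of `C` is associative. -/
noncomputable instance annRing (h : IsAlt B) : NonUnitalRing (Quo (annIdeal F h)) :=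
  { (inferInstance : NonUnitalNonAssocRing (Quo (annIdeal F h))) with
    mul_assoc := by
      intro a b c
      obtain ⟨a, rfl⟩ := Quo.mk_surj _ a
      obtain ⟨b, rfl⟩ := Quo.mk_surj _ b
      obtain ⟨c, rfl⟩ := Quo.mk_surj _ c
      rw [← Quo.mk_mul, ← Quo.mk_mul, ← Quo.mk_mul, ← Quo.mk_mul, Quo.mk_eq]
      exact InAnn.as h a b c }

/-- The ideal of all combinations of products of two elements of `C`. -/
def prodIdeal (F : Type*) [Field F] {B : Type*} [NonUnitalNonAssocRing B] [Module F B]
    [IsScalarTower F B B] [SMulCommClass F B B] (h : IsAlt B) : NAIdeal F B where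
  car := Submodule.span F {a | ∃ c d : B, InC c ∧ InC d ∧ a = c * d}
  mul_left := by
    intro a j hj
    induction hj using Submodule.span_induction with
    | mem x hx =>
      obtain ⟨c, d, hc, hd, rfl⟩ := hx
      exact Submodule.subset_span ⟨a * c, d, hc.mul_left h a, hd, (hc.nuc.assoc2 h a d).symm⟩
    | zero => rw [mul_zero]; exact Submodule.zero_mem _
    | add x y _ _ hx hy => rw [mul_add]; exact Submodule.add_mem _ hx hy
    | smul r x _ hx => rw [mul_smul_comm]; exact Submodule.smul_mem _ r hx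
  mul_right := by
    intro a j hj
    induction hj using Submodule.span_induction with
    | mem x hx =>
      obtain ⟨c, d, hc, hd, rfl⟩ := hx
      exact Submodule.subset_span ⟨c, d * a, hc, hd.mul_right h a, hc.nuc.assoc1 d a⟩
    | zero => rw [zero_mul]; exact Submodule.zero_mem _
    | add x y _ _ hx hy => rw [add_mul]; exact Submodule.add_mem _ hx hy
    | smul r x _ hx => rw [smul_mul_assoc]; exact Submodule.smul_mem _ r hx

theorem mem_prodIdeal (h : IsAlt B) {a : B} (ha : a ∈ (prodIdeal F h).car) :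
    ∃ n : ℕ, ∃ u v : Fin n → B, (∀ i, InC (u i)) ∧ (∀ i, InC (v i)) ∧ a = ∑ i, u i * v i := by
  have ha' : a ∈ Submodule.span F {a | ∃ c d : B, InC c ∧ InC d ∧ a = c * d} := ha
  induction ha' using Submodule.span_induction with
  | mem x hx =>
    obtain ⟨c, d, hc, hd, rfl⟩ := hx
    exact ⟨1, fun _ => c, fun _ => d, fun _ => hc, fun _ => hd, by simp⟩
  | zero => exact ⟨0, Fin.elim0, Fin.elim0, fun i => i.elim0, fun i => i.elim0, by simp⟩
  | add x y hx0 hy0 hx hy =>
    obtain ⟨n, u, v, hu, hv, rfl⟩ := hx hx0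
    obtain ⟨m, u', v', hu', hv', rfl⟩ := hy hy0
    refine ⟨n + m, Fin.append u u', Fin.append v v', ?_, ?_, ?_⟩
    · intro i
      refine Fin.addCases (fun i => ?_) (fun i => ?_) i
      · rw [Fin.append_left]; exact hu i
      · rw [Fin.append_right]; exact hu' i
    · intro i
      refine Fin.addCases (fun i => ?_) (fun i => ?_) i
      · rw [Fin.append_left]; exact hv i
      · rw [Fin.append_right]; exact hv' i
    · rw [Fin.sum_univ_add]
      simp only [Fin.append_left, Fin.append_right]
  | smul r x hx0 hx =>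
    obtain ⟨n, u, v, hu, hv, rfl⟩ := hx hx0
    refine ⟨n, fun i => r • u i, v, fun i => (hu i).smul r, hv, ?_⟩
    simp only [smul_mul_assoc, Finset.smul_sum]

end ann

section free

variable (F : Type) [Field F]

/-- The free nonassociative algebra. -/
abbrev Fr := FreeNonUnitalNonAssocAlgebra F ℕ

/-- The ideal of all identities of alternative algebras. -/
def altIdeal : NAIdeal F (Fr F) where
  car :=
    { carrier := {f | ∀ (B : Type) [NonUnitalNonAssocRing B] [Module F B] [IsScalarTower F B B]
        [SMulCommClass F B B], IsAlt B → ∀ φ : ℕ → B, lift F φ f = 0}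
      add_mem' := by
        intro a b ha hb B _ _ _ _ hB φ
        rw [map_add, ha B hB φ, hb B hB φ, add_zero]
      zero_mem' := by
        intro B _ _ _ _ hB φ
        exact map_zero _
      smul_mem' := by
        intro r a ha B _ _ _ _ hB φ
        rw [map_smul, ha B hB φ, smul_zero] }
  mul_left := by
    intro a j hj B _ _ _ _ hB φ
    rw [map_mul, hj B hB φ, mul_zero]
  mul_right := by
    intro a j hj B _ _ _ _ hB φ
    rw [map_mul, hj B hB φ, zero_mul]

/-- The free alternative algebra of countable rank. -/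
abbrev FA := Quo (altIdeal F)

theorem isAlt_FA : IsAlt (FA F) := by
  intro a b
  obtain ⟨a, rfl⟩ := Quo.mk_surj _ a
  obtain ⟨b, rfl⟩ := Quo.mk_surj _ b
  constructor
  · rw [← Quo.mk_mul, ← Quo.mk_mul, ← Quo.mk_mul, ← Quo.mk_mul, Quo.mk_eq]
    intro B _ _ _ _ hB φ
    rw [map_sub, map_mul, map_mul, map_mul, map_mul, (hB _ _).1, sub_self]
  · rw [← Quo.mk_mul, ← Quo.mk_mul, ← Quo.mk_mul, ← Quo.mk_mul, Quo.mk_eq]
    intro B _ _ _ _ hB φ
    rw [map_sub, map_mul, map_mul, map_mul, map_mul, (hB _ _).2, sub_self]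

/-- The generators of the free associative algebra. -/
noncomputable def gen (i : ℕ) : MonoidAlgebra F W := MonoidAlgebra.single (FreeMonoid.of i) 1

/-- The homomorphism to the free associative algebra. -/
noncomputable def pi : FA F →ₙₐ[F] MonoidAlgebra F W :=
  Quo.lift (altIdeal F) (lift F (gen F)) (fun _ hj => hj _ isAlt_of_assoc _)

theorem pi_mk (f : Fr F) : pi F (Quo.mk _ f) = lift F (gen F) f := rfl

theorem pi_ker (a : FA F) (ha : pi F a = 0) : InAnn a := by
  obtain ⟨f, rfl⟩ := Quo.mk_surj _ a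
  rw [pi_mk] at ha
  set J := annIdeal F (isAlt_FA F) with hJ
  let ψ : MonoidAlgebra F W →ₐ[F] Unitization F (Quo J) :=
    MonoidAlgebra.lift F _ W (FreeMonoid.lift
      (fun i => (Unitization.inr (Quo.mk J (Quo.mk (altIdeal F) (of F i))) : Unitization F (Quo J))))
  have i1 : SMulCommClass F (Unitization F (Quo J)) (Unitization F (Quo J)) :=
    ⟨fun r a b => (Algebra.mul_smul_comm r a b).symm⟩
  have i2 : IsScalarTower F (Unitization F (Quo J)) (Unitization F (Quo J)) :=
    ⟨fun r a b => Algebra.smul_mul_assoc r a b⟩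
  have key : ((ψ : MonoidAlgebra F W →ₙₐ[F] Unitization F (Quo J)).comp (lift F (gen F)))
      = ((Unitization.inrNonUnitalAlgHom F (Quo J)).comp (Quo.mkHom J)).comp
        (Quo.mkHom (altIdeal F)) := by
    apply FreeNonUnitalNonAssocAlgebra.hom_ext
    intro i
    simp only [NonUnitalAlgHom.comp_apply, lift_of_apply, gen]
    change ψ (MonoidAlgebra.single (FreeMonoid.of i) 1) = _
    simp only [ψ, MonoidAlgebra.lift_single, FreeMonoid.lift_eval_of, one_smul]
    rfl
  have k2 := DFunLike.congr_fun key f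
  simp only [NonUnitalAlgHom.comp_apply] at k2
  rw [ha, map_zero] at k2
  have k3 : (Unitization.inr (Quo.mk J (Quo.mk (altIdeal F) f)) : Unitization F (Quo J)) = 0 :=
    k2.symm
  have k4 : Quo.mk J (Quo.mk (altIdeal F) f) = 0 := by
    apply Unitization.inr_injective (R := F)
    rw [k3, Unitization.inr_zero]
  exact (Quo.mk_zero_iff J).mp k4

/-- An element of `C^2` with zero image in the free associative algebra vanishes. -/
theorem inter_zero {a : FA F} (h1 : pi F a = 0) (h2 : a ∈ (prodIdeal F (isAlt_FA F)).car) :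
    a = 0 := by
  obtain ⟨n, u, v, hu, hv, rfl⟩ := mem_prodIdeal (isAlt_FA F) h2
  exact sum_zero (isAlt_FA F) (fun i => Quo.mk _ (of F i)) (pi F)
    (fun i => by rw [pi_mk, lift_of_apply]; rfl) (pi_ker F) n u v hu hv h1

end free

end Pool.Agent.H999R3
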