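import Mathlib
import Pool.Agent.H999R3.Main2

set_option autoImplicit false

/-! The two sets of identities and the final argument. -/

namespace Pool.Agent.H999R3

open Words FreeNonUnitalNonAssocAlgebra

section

variable (F : Type) [Field F]

/-- Polynomials all of whose values in alternative algebras lie in `C`. -/
def UC (s : Fr F) : Prop := ∀ (B : Type) [NonUnitalNonAssocRing B] [Module F B]
  [IsScalarTower F B B] [SMulCommClass F B B], IsAlt B → ∀ φ : ℕ → B, InC (lift F φ s)

/-- The first set: the associator. -/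
def S1 : Set (Fr F) := {(of F 0 * of F 1) * of F 2 - of F 0 * (of F 1 * of F 2)}

/-- The second set: products of two polynomials with values in `C`. -/
def S2 : Set (Fr F) := {f | ∃ s t : Fr F, UC F s ∧ UC F t ∧ f = s * t}

/-- The commutator of the square of a commutator with one of its entries. -/
def nn {B : Type*} [NonUnitalNonAssocRing B] (x y : B) : B :=
  (x * y - y * x) * (x * y - y * x) * x - x * ((x * y - y * x) * (x * y - y * x))

/-- A polynomial with values in `C`. -/
noncomputable def s0 : Fr F := nn (of F 0) (of F 1) * nn (of F 1) (of F 0)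
  - nn (of F 1) (of F 0) * nn (of F 0) (of F 1)

theorem map_nn {B : Type*} [NonUnitalNonAssocRing B] [Module F B] (g : Fr F →ₙₐ[F] B)
    (x y : Fr F) : g (nn x y) = nn (g x) (g y) := by
  simp only [nn, map_sub, map_mul]

theorem lift_s0 {B : Type*} [NonUnitalNonAssocRing B] [Module F B] [IsScalarTower F B B]
    [SMulCommClass F B B] (φ : ℕ → B) : lift F φ (s0 F) =
    nn (φ 0) (φ 1) * nn (φ 1) (φ 0) - nn (φ 1) (φ 0) * nn (φ 0) (φ 1) := by
  rw [s0, map_sub, map_mul, map_mul, map_nn, map_nn, lift_of_apply, lift_of_apply]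

theorem uc_s0 [CharZero F] : UC F (s0 F) := by
  intro B _ _ _ _ hB φ
  have h2 : ∀ b : B, b + b = 0 → b = 0 := by
    intro b hb
    have h : (2 : F) • b = 0 := by rw [two_smul]; exact hb
    rcases smul_eq_zero.mp h with h | h
    · exact absurd h two_ne_zero
    · exact h
  rw [lift_s0]
  exact InC.of_comm hB (nuc_basic hB h2 _ _) (nuc_basic hB h2 _ _)

theorem final (f : Fr F)
    (H1 : ∀ (A : Type) [NonUnitalNonAssocRing A] [Module F A] [IsScalarTower F A A]
      [SMulCommClass F A A], IsAlt A → (∀ s ∈ S1 F, ∀ φ : ℕ → A, lift F φ s = 0) →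
      ∀ φ : ℕ → A, lift F φ f = 0)
    (H2 : ∀ (A : Type) [NonUnitalNonAssocRing A] [Module F A] [IsScalarTower F A A]
      [SMulCommClass F A A], IsAlt A → (∀ s ∈ S2 F, ∀ φ : ℕ → A, lift F φ s = 0) →
      ∀ φ : ℕ → A, lift F φ f = 0) :
    ∀ (A : Type) [NonUnitalNonAssocRing A] [Module F A] [IsScalarTower F A A]
      [SMulCommClass F A A], IsAlt A → ∀ φ : ℕ → A, lift F φ f = 0 := by
  have h1 : lift F (gen F) f = 0 := by
    refine H1 (MonoidAlgebra F W) isAlt_of_assoc ?_ (gen F)
    intro s hs φ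
    rw [S1, Set.mem_singleton_iff] at hs
    rw [hs, map_sub, map_mul, map_mul, map_mul, map_mul, mul_assoc, sub_self]
  have h1' : pi F (Quo.mk _ f) = 0 := by rw [pi_mk]; exact h1
  set P := prodIdeal F (isAlt_FA F) with hP
  have hcomp : ∀ (φ' : ℕ → FA F) (s : Fr F),
      lift F (fun i => Quo.mk P (φ' i)) s = Quo.mk P (lift F φ' s) := by
    intro φ' s
    have key : lift F (fun i => Quo.mk P (φ' i)) = (Quo.mkHom P).comp (lift F φ') := by
      apply FreeNonUnitalNonAssocAlgebra.hom_ext
      intro i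
      rw [NonUnitalAlgHom.comp_apply, lift_of_apply, lift_of_apply]
      rfl
    exact DFunLike.congr_fun key s
  have hcomp2 : ∀ s : Fr F, lift F (fun i => Quo.mk (altIdeal F) (of F i)) s
      = Quo.mk (altIdeal F) s := by
    intro s
    have key : lift F (fun i => Quo.mk (altIdeal F) (of F i)) = Quo.mkHom (altIdeal F) := by
      apply FreeNonUnitalNonAssocAlgebra.hom_ext
      intro i
      rw [lift_of_apply]
      rfl
    exact DFunLike.congr_fun key s
  have h2 : lift F (fun i => Quo.mk P (Quo.mk (altIdeal F) (of F i))) f = 0 := by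
    refine H2 (Quo P) ((isAlt_FA F).quo P) ?_ _
    rintro s ⟨a, b, ha, hb, rfl⟩ φ
    choose φ' hφ' using fun i => Quo.mk_surj P (φ i)
    have e : φ = fun i => Quo.mk P (φ' i) := by
      funext i; exact (hφ' i).symm
    rw [e, hcomp, Quo.mk_zero_iff, map_mul]
    exact Submodule.subset_span ⟨_, _, ha _ (isAlt_FA F) φ', hb _ (isAlt_FA F) φ', rfl⟩
  rw [hcomp, hcomp2, Quo.mk_zero_iff] at h2
  have h3 := inter_zero F h1' h2
  rw [Quo.mk_zero_iff] at h3
  intro A _ _ _ _ hA φ
  exact h3 A hA φ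

end

section matrices

/-- First matrix. -/
def X0 : Matrix (Fin 3) (Fin 3) ℤ := !![0,1,0;1,0,0;0,0,0]

/-- Second matrix. -/
def Y0 : Matrix (Fin 3) (Fin 3) ℤ := !![0,0,1;0,0,0;1,0,0]

/-- The commutator polynomial. -/
def cc {B : Type*} [NonUnitalNonAssocRing B] (x y : B) : B :=
  nn x y * nn y x - nn y x * nn x y

theorem cc_entry : (cc X0 Y0 * cc X0 Y0) 1 1 = -1 := by
  decide +kernel

theorem s2_ne (F : Type) [Field F] [CharZero F] :
    ∃ φ : ℕ → Matrix (Fin 3) (Fin 3) F, lift F φ (s0 F * s0 F) ≠ 0 := by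
  let g : Matrix (Fin 3) (Fin 3) ℤ →+* Matrix (Fin 3) (Fin 3) F :=
    (Int.castRingHom F).mapMatrix
  refine ⟨fun i => if i = 0 then g X0 else g Y0, ?_⟩
  rw [map_mul, lift_s0]
  simp only [if_true, one_ne_zero, if_false]
  have e : g (cc X0 Y0 * cc X0 Y0) = (nn (g X0) (g Y0) * nn (g Y0) (g X0)
      - nn (g Y0) (g X0) * nn (g X0) (g Y0)) * (nn (g X0) (g Y0) * nn (g Y0) (g X0)
      - nn (g Y0) (g X0) * nn (g X0) (g Y0)) := by
    simp only [cc, nn, map_mul, map_sub]
  rw [← e]
  intro h
  have h' := congrFun (congrFun h 1) 1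
  have h'' : ((((cc X0 Y0 * cc X0 Y0) 1 1 : ℤ)) : F) = 0 := h'
  rw [cc_entry] at h''
  simp at h''

end matrices

end Pool.Agent.H999R3
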